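import Pool.Agent.PST.StmtsK4

/-! LAL: linear algebra -/

set_option autoImplicit false

open scoped BigOperators

noncomputable section

namespace Pool.Agent.PST.H15

open Pool.Agent.PST

theorem lal (alt : AltStmt) : LalStmt := by
  classical
  intro F V E Z _ _ _ _ _ _ _ φ W Q n la χ xx t w eg hQ hadd hanti hself hW hrel
  choose s hs r hr hsr using hQ
  -- `s v` and `v` agree modulo `W`
  have hsW : ∀ v, s v * v⁻¹ ∈ W := by
    intro v
    have h1 : s v * v⁻¹ = (r v)⁻¹ := by
      have h2 : s v = v * (r v)⁻¹ := eq_mul_inv_of_mul_eq (hsr v).symm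
      rw [h2, mul_comm v, mul_inv_cancel_right]
    rw [h1]
    exact W.inv_mem (hr v)
  -- only the classes matter
  have hcl : ∀ q ∈ Q, ∀ q' ∈ Q, q * q'⁻¹ ∈ W → ∀ v ∈ Q, w q v = w q' v := by
    intro q hq q' hq' h v hv
    have h1 : q = (q * q'⁻¹) * q' := by rw [inv_mul_cancel_right]
    have h2 : q * q'⁻¹ ∈ Q := Q.mul_mem hq (Q.inv_mem hq')
    rw [h1, hadd _ h2 _ hq' v hv, hW _ h2 v hv h, zero_add]
  have hcr : ∀ q ∈ Q, ∀ q' ∈ Q, q * q'⁻¹ ∈ W → ∀ v ∈ Q, w v q = w v q' := by
    intro q hq q' hq' h v hv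
    rw [hanti q hq v hv, hanti q' hq' v hv, hcl q hq q' hq' h v hv]
  have hmul : ∀ u u', s (u * u') * (s u * s u')⁻¹ ∈ W := by
    intro u u'
    have h1 : s (u * u') * (s u * s u')⁻¹ =
        (s (u * u') * (u * u')⁻¹) * ((s u * u⁻¹)⁻¹ * (s u' * u'⁻¹)⁻¹) := by
      simp only [mul_inv_rev, inv_inv]
      have : ∀ a b c d e : V, a * (d⁻¹ * c⁻¹) = a * (e⁻¹ * b⁻¹) * (b * c⁻¹ * (e * d⁻¹)) := by
        intro a b c d e
        have h2 : a * (e⁻¹ * b⁻¹) * (b * c⁻¹ * (e * d⁻¹)) =
            a * (d⁻¹ * c⁻¹) * ((b⁻¹ * b) * (e⁻¹ * e)) := by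
          simp only [mul_comm, mul_left_comm, mul_assoc]
        rw [h2]
        simp
      exact this _ _ _ _ _
    rw [h1]
    exact W.mul_mem (hsW _) (W.mul_mem (W.inv_mem (hsW u)) (W.inv_mem (hsW u')))
  set w' : V → V → Z := fun u v => w (s u) (s v) with hw'
  have hw'Q : ∀ u ∈ Q, ∀ v ∈ Q, w' u v = w u v := by
    intro u hu v hv
    rw [hw']
    simp only
    rw [hcl _ (hs u) u hu (hsW u) _ (hs v), hcr _ (hs v) v hv (hsW v) u hu]
  have hadd' : ∀ u u' v, w' (u * u') v = w' u v + w' u' v := by
    intro u u' v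
    rw [hw']
    simp only
    rw [← hadd _ (hs u) _ (hs u') _ (hs v)]
    exact hcl _ (hs _) _ (Q.mul_mem (hs u) (hs u')) (hmul u u') _ (hs v)
  have hanti' : ∀ u v, w' v u = - w' u v := fun u v => hanti _ (hs u) _ (hs v)
  have hlas : ∀ l u, la l (s u) = la l u := by
    intro l u
    have h1 : la l u = la l (s u) + la l (r u) := by
      conv_lhs => rw [hsr u]
      exact eg.add l _ _
    rw [h1, (eg.ker (r u)).1 (hr u) l, add_zero]
  have hsmem : ∀ u, u ∈ W → s u ∈ W := by
    intro u hu
    rw [eg.ker]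
    intro l
    rw [hlas, (eg.ker u).1 hu l]
  have hsmem2 : ∀ u, u ∉ W → s u ∉ W := by
    intro u hu h
    apply hu
    rw [eg.ker]
    intro l
    rw [← hlas, (eg.ker _).1 h l]
  -- the ideals
  set I : Ideal Z := Ideal.span (Set.range fun p : V × V => w' p.1 p.2) with hI
  have hwI : ∀ u v, w' u v ∈ I := fun u v => Ideal.subset_span ⟨(u, v), rfl⟩
  set J : Ideal Z := nilradical Z with hJ
  have hf := alt F V E (Z ⧸ (J * I)) φ W Q n la χ xx t
    (fun u v => Ideal.Quotient.mk (J * I) (w' u v)) eg
    (by intro u u' v; rw [hadd', map_add])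
    (by
      intro u v v'
      rw [hanti' (v * v') u, hadd', hanti' v u, hanti' v' u, ← map_add]
      congr 1
      ring)
    (by
      intro a ha v
      have h1 : w' a v = 0 := hW _ (hs a) _ (hs v) (hsmem a ha)
      rw [hanti' a v, h1, neg_zero, map_zero]
      exact ⟨rfl, rfl⟩)
    (by
      intro u
      have h1 : w' u u = 0 := hself _ (hs u)
      rw [h1, map_zero])
    (by
      intro u
      by_cases hu : u ∈ W
      · refine Finset.sum_eq_zero fun v _ => ?_
        have h1 : pg la xx t u v = 0 := by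
          unfold pg
          refine Finset.sum_eq_zero fun l _ => ?_
          rw [(eg.ker u).1 hu l, mul_zero, zero_mul]
        rw [h1, zero_smul]
      · obtain ⟨m, hm, hsum⟩ := hrel _ (hs u) (hsmem2 u hu)
        have h1 : ∀ l, ∑ v, xx l v • w v (s u) = ∑ v, xx l v • w' v u := by
          intro l
          refine Finset.sum_congr rfl fun v _ => ?_
          by_cases hv : v ∈ Q
          · rw [hw']
            simp only
            rw [hcl _ (hs v) v hv (hsW v) _ (hs u)]
          · rw [eg.qs l v hv, zero_smul, zero_smul]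
        have h2 : ∑ v, pg la xx t u v • w' u v =
            ∑ l, m l * ∑ v, xx l v • w' v u := by
          have h3 : ∑ v, pg la xx t u v • w' u v =
              - ∑ l, algebraMap F Z (t l * la l u) * ∑ v, xx l v • w' v u := by
            simp only [← Algebra.smul_def, Finset.smul_sum]
            rw [Finset.sum_comm, ← Finset.sum_neg_distrib]
            refine Finset.sum_congr rfl fun v _ => ?_
            unfold pg
            rw [Finset.sum_smul, ← Finset.sum_neg_distrib]
            refine Finset.sum_congr rfl fun l _ => ?_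
            rw [hanti' u v, smul_smul, smul_neg, neg_neg]
          rw [h3]
          have h4 : ∑ l, (algebraMap F Z (t l * la l u) + m l) * ∑ v, xx l v • w' v u = 0 := by
            rw [← hsum]
            refine Finset.sum_congr rfl fun l _ => ?_
            rw [h1, hlas]
          simp only [add_mul, Finset.sum_add_distrib] at h4
          rw [eq_comm, ← sub_eq_zero, sub_neg_eq_add, add_comm]
          exact h4
        have h5 : ∑ v, pg la xx t u v • w' u v ∈ J * I := by
          rw [h2]
          refine Ideal.sum_mem _ fun l _ => Ideal.mul_mem_mul ?_ ?_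
          · exact mem_nilradical.2 (hm l)
          · refine Ideal.sum_mem _ fun v _ => ?_
            rw [Algebra.smul_def]
            exact I.mul_mem_left _ (hwI v u)
        have h6 := Ideal.Quotient.eq_zero_iff_mem.2 h5
        rw [map_sum] at h6
        rw [← h6]
        refine Finset.sum_congr rfl fun v _ => ?_
        rw [Algebra.smul_def, Algebra.smul_def, map_mul]
        rfl)
  have hIJ : I ≤ J • I := by
    rw [hI, Ideal.span_le, ← hI]
    rintro _ ⟨p, rfl⟩
    exact Ideal.Quotient.eq_zero_iff_mem.1 (hf p.1 p.2)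
  have : IsNoetherianRing Z := isNoetherian_of_tower F (inferInstance : IsNoetherian F Z)
  have hI0 : I = ⊥ := Submodule.eq_bot_of_le_smul_of_le_jacobson_bot J I
    (IsNoetherian.noetherian I) hIJ (by
      rw [hJ]
      exact Ideal.radical_le_jacobson)
  intro u hu v hv
  rw [← hw'Q u hu v hv]
  have h1 := hwI u v
  rw [hI0] at h1
  exact (Submodule.mem_bot Z).1 h1

end Pool.Agent.PST.H15
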