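import Pool.Agent.PST.StmtsNW
import Pool.Agent.Helper45_PSS.NFR
import Pool.Agent.Helper52_PSS.FRB
import Pool.Agent.Helper85_PSS.ORB

/-!
# Squad PST, row NCB: `B(P) = A(P)` for `P ≥ W`
-/

open scoped BigOperators TensorProduct

noncomputable section

namespace Pool.Agent.PST.H15

open Pool.Agent.PFC (tw IsTv)
open Pool.Agent.PFD.D2b (FrR)
open Pool.Agent.PSS Pool.Agent.PST

/-- the diagonal -/
def dg (V : Type) [CommGroup V] : V →* V × V := (MonoidHom.id V).prod (MonoidHom.id V)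

theorem dg_inj (V : Type) [CommGroup V] : Function.Injective (dg V) := fun _ _ h =>
  congrArg Prod.fst h

theorem cw_dg {R V A : Type} [CommRing R] [CommGroup V] [Ring A] [Algebra R A] (α : V →* A) :
    cw R α = (bw R α).comp (dg V) := rfl

/-- the Brauer kernel in terms of the coordinates at the fixed points -/
theorem bk_iff {ℓ : ℕ} [Fact ℓ.Prime] {F V A Ω : Type} [Field F] [CharP F ℓ] [CommGroup V]
    [Fintype V] [Ring A] [Algebra F A] [Fintype Ω] [MulAction (V × V) Ω] (α : V →* A)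
    {b : Ω → A} {c : Ω → (A →ₗ[F] F)} (hV : IsPGroup ℓ V) (hf : FrR (bw F α) b c)
    (P : Subgroup V) {a : A} (ha : a ∈ FxR (cw F α) P) :
    a ∈ BKR (cw F α) P ↔ ∀ ω, P.map (dg V) ≤ MulAction.stabilizer (V × V) ω → c ω a = 0 := by
  have hℓ : (ℓ : F) = 0 := CharP.cast_eq_zero F ℓ
  have hP : IsPGroup ℓ (P.map (dg V)) := (hV.to_subgroup P).map (dg V)
  obtain ⟨h1, h2⟩ := H52.frb H85.orb ℓ F (V × V) A Ω (bw F α) b c (P.map (dg V)) hℓ hP
    inferInstance hf
  rw [cw_dg, ← FxR_map] at ha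
  rw [cw_dg, ← BKR_map _ (dg_inj V)]
  constructor
  · intro h ω hω
    exact h1 ω hω a h
  · intro h
    have h3 := h2 a ha
    rwa [Finset.sum_eq_zero (fun ω _ => by rw [h ω.1 ω.2, zero_smul]), sub_zero] at h3

theorem ncb : NcbStmt := by
  intro ℓ _ F V A B Ω _ _ _ _ _ _ _ _ _ _ α b c W P N hV hf hfre hWP
  classical
  have : Finite (MulAut W) := Finite.of_injective (fun f => (f : W → W)) DFunLike.coe_injective
  haveI : Fintype (MulAut W) := Fintype.ofFinite _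
  have hℓ : (ℓ : F) = 0 := CharP.cast_eq_zero F ℓ
  obtain ⟨c', hc1, hc2, hf'⟩ := H45.nfr (H52.frb H85.orb) ℓ F V A B Ω α b c W N hℓ hV hf
  have hst : ∀ t : (Σ ε : MulAut W, Fp Ω (twW W ε)), P.map (dg V) ≤ MulAction.stabilizer (V × V) t →
      P.map (dg V) ≤ MulAction.stabilizer (V × V) t.2.1 := by
    rintro ⟨ε, ω⟩ h p hp
    have h1 : p • (⟨ε, ω⟩ : Σ ε : MulAut W, Fp Ω (twW W ε)) = ⟨ε, ω⟩ := h hp
    have h2 : (⟨ε, p • ω⟩ : Σ ε : MulAut W, Fp Ω (twW W ε)) = ⟨ε, ω⟩ := h1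
    have h3 : p • ω = ω := eq_of_heq (Sigma.mk.inj_iff.1 h2).2
    exact congrArg (fun x : Fp Ω (twW W ε) => x.1) h3
  have hst' : ∀ t : (Σ ε : MulAut W, Fp Ω (twW W ε)),
      P.map (dg V) ≤ MulAction.stabilizer (V × V) t.2.1 →
      P.map (dg V) ≤ MulAction.stabilizer (V × V) t := by
    rintro ⟨ε, ω⟩ h p hp
    have h1 : p • ω.1 = ω.1 := h hp
    have h3 : p • ω = ω := Subtype.ext h1
    change (⟨ε, p • ω⟩ : Σ ε : MulAut W, Fp Ω (twW W ε)) = ⟨ε, ω⟩
    rw [h3]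
  have htw1 : ∀ ω : Ω, P.map (dg V) ≤ MulAction.stabilizer (V × V) ω →
      twW W 1 ≤ MulAction.stabilizer (V × V) ω := by
    rintro ω h _ ⟨w, rfl⟩
    exact h ⟨(w : V), hWP w.2, rfl⟩
  have hFx : ∀ a, a ∈ FxR (cw F α) P → a ∈ FxR (bw F α) (twW W (1 : MulAut W)) := by
    intro a ha
    rw [mem_tw]
    intro w
    rw [mem_cw] at ha
    exact ha w (hWP w.2)
  refine ⟨?_, ?_, ?_⟩
  · intro a ha
    have ha1 := hFx a ha
    have hb : N.β 1 a ∈ FxR (cw F N.nwh) P := by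
      intro p hp
      have h1 := H45.bw_nw N (p, p) ha1
      change bw F N.nwh (p, p) (N.β 1 a) = N.β 1 a
      rw [h1]
      exact congrArg (N.β 1) (ha p hp)
    rw [bk_iff N.nwh hV hf' P hb, bk_iff α hV hf P ha]
    constructor
    · intro h ω hω
      have h1 := h ⟨1, ⟨ω, htw1 ω hω⟩⟩ (hst' _ hω)
      have h2 := hc1 ⟨1, ⟨ω, htw1 ω hω⟩⟩ a ha1
      rw [h2] at h1
      exact h1
    · rintro h ⟨ε, ω⟩ ht
      by_cases hε : ε = 1
      · subst hε
        have h2 := hc1 ⟨1, ω⟩ a ha1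
        rw [h2]
        exact h ω.1 (hst ⟨1, ω⟩ ht)
      · exact hc2 ⟨ε, ω⟩ 1 (fun h => hε h.symm) a ha1
  · intro ε hε a ha hb
    rw [bk_iff N.nwh hV hf' P hb]
    rintro ⟨δ, ω⟩ ht
    by_cases hδ : ε = δ
    · exfalso
      subst hδ
      apply hε
      have h1 := hst ⟨ε, ω⟩ ht
      ext w
      have h2 : ((w : V), (w : V)) • ω.1 = ω.1 := h1 ⟨(w : V), hWP w.2, rfl⟩
      have h3 : (((ε w : W) : V), (w : V)) • ω.1 = ω.1 := ω.2 ⟨w, rfl⟩
      have h4 : ((((w : V)⁻¹ * ((ε w : W) : V)), (1 : V)) : V × V) • ω.1 = ω.1 := by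
        have e : ((((w : V)⁻¹ * ((ε w : W) : V)), (1 : V)) : V × V) =
            ((w : V), (w : V))⁻¹ * (((ε w : W) : V), (w : V)) := by
          ext
          · rfl
          · exact (inv_mul_cancel (w : V)).symm
        rw [e, ← smul_smul, h3]
        exact inv_smul_eq_iff.2 h2.symm
      have h5 := hfre _ _ h4
      have h6 : ((ε w : W) : V) = w := by
        have h7 := congrArg (fun x => (w : V) * x) h5
        simp only [mul_inv_cancel_left, mul_one] at h7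
        exact h7
      exact h6
    · exact hc2 ⟨δ, ω⟩ ε hδ a ha
  · intro a ha hb
    obtain ⟨x, hx⟩ : ∃ x, x = N.β 1 a := ⟨_, rfl⟩
    rw [← hx] at hb ⊢
    refine ⟨∑ ω : Fp Ω (twW W (1 : MulAut W)), c' ⟨1, ω⟩ x • b ω.1, ?_, ?_⟩
    · intro p hp
      change bw F α (p, p) _ = _
      rw [map_sum]
      refine Fintype.sum_equiv (MulAction.toPerm ((p, p) : V × V)) _ _ ?_
      intro ω
      rw [map_smul, ← hf.1]
      have h1 := hf'.2.1 (p, p) ⟨1, ω⟩ x
      have h2 : bw F N.nwh (p, p) x = x := hb p hp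
      rw [h2] at h1
      change _ = c' ⟨1, ((p, p) : V × V) • ω⟩ x • b (((p, p) : V × V) • ω.1)
      rw [← h1]
      rfl
    · rw [map_sum]
      have h1 := hf'.2.2 x
      rw [Fintype.sum_sigma, Finset.sum_eq_single (1 : MulAut W)] at h1
      · conv_rhs => rw [← h1]
        refine Finset.sum_congr (by congr) fun ω _ => ?_
        rw [map_smul]
      · intro ε _ hε
        apply Finset.sum_eq_zero
        intro ω _
        rw [hx, hc2 ⟨ε, ω⟩ 1 (fun h => hε h.symm) a ha, zero_smul]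
      · intro h
        exact absurd (Finset.mem_univ _) h

end Pool.Agent.PST.H15
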