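import Pool.Agent.PST.StmtsCL
import Pool.Agent.Helper20_PSS.FPX
import Pool.Agent.Helper92_PSS.FCO
import Pool.Agent.Helper77_PSS.FBK
import Pool.Agent.Helper6_PSS.BKI
import Pool.Agent.Helper27_PSS.TFX

/-! PRA: purity -/

set_option autoImplicit false

open scoped BigOperators PowerSeries

noncomputable section

namespace Pool.Agent.PST.H15

open Pool.Agent.PST Pool.Agent.PSS

theorem fco : S0.FcoStmt := S0.H92.fco
theorem fpx : S0.FpxStmt := Pool.Agent.PSS.H20.fpx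
theorem fbk : S0.FbkStmt := S0.H77.fbk fpx
theorem bki : S0.BkiStmt := S0.H6.bki
theorem tfx : S3.TfxStmt := S3.H27.tfx fco fbk

theorem fx_mul {R V A : Type} [CommRing R] [CommGroup V] [Ring A] [Algebra R A] (α : V →* A)
    (P : Subgroup V) (a m : A) (ha : a ∈ FxR (cw R α) P) (hm : m ∈ FxR (cw R α) P) :
    a * m ∈ FxR (cw R α) P := by
  intro h hh
  have h1 : α h * a * α h⁻¹ = a := by
    have := ha h hh
    simpa [cw, bw, mul_assoc] using this
  have h2 : α h * m * α h⁻¹ = m := by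
    have := hm h hh
    simpa [cw, bw, mul_assoc] using this
  have h3 : cw R α h (a * m) = α h * (a * m) * α h⁻¹ := by
    simp [cw, bw, mul_assoc]
  have h4 : α h⁻¹ * α h = 1 := by rw [← map_mul, inv_mul_cancel, map_one]
  rw [h3]
  calc α h * (a * m) * α h⁻¹ = α h * a * (α h⁻¹ * α h) * m * α h⁻¹ := by
        rw [h4]; simp [mul_assoc]
    _ = (α h * a * α h⁻¹) * (α h * m * α h⁻¹) := by simp [mul_assoc]
    _ = a * m := by rw [h1, h2]

theorem fx_le {R H M : Type} [CommRing R] [Group H] [AddCommGroup M] [Module R M]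
    (ρ : H →* (M →ₗ[R] M)) (P P' : Subgroup H) (h : P ≤ P') : FxR ρ P' ≤ FxR ρ P :=
  fun _ hm g hg => hm g (h hg)

theorem pra : PraStmt := by
  classical
  intro ℓ _ F W E As _ _ _ _ _ _ _ ψ γ Q hW hper a ha ha1 ha2 ha3
  have htf := tfx ℓ F W E As ψ γ hW hper
  have htn : ∀ (n : ℕ) (P : Subgroup W), ∀ x ∈ FxR (cw F⟦X⟧ γ) P,
      ((PowerSeries.X : F⟦X⟧) ^ n) • x ∈ BKR (cw F⟦X⟧ γ) P → x ∈ BKR (cw F⟦X⟧ γ) P := by
    intro n P x hx
    induction n with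
    | zero => intro h; simpa using h
    | succ n ih =>
      intro h
      apply ih
      apply htf.2 P _ (Submodule.smul_mem _ _ hx)
      rw [smul_smul, ← pow_succ']
      exact h
  obtain ⟨Ω, _, _, b, c, hfr, _⟩ := hper
  letI act : MulAction W Ω :=
    MulAction.compHom Ω ((MonoidHom.id W).prod (MonoidHom.id W))
  have hfr' : Pool.Agent.PFD.D2b.FrR (cw F⟦X⟧ γ) b c := by
    refine ⟨?_, ?_, hfr.2.2⟩
    · intro g t
      exact hfr.1 (g, g) t
    · intro g t n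
      exact hfr.2.1 (g, g) t n
  have hl : ((ℓ : ℕ) : F⟦X⟧) = 0 := by
    have h1 : ((ℓ : ℕ) : F) = 0 := CharP.cast_eq_zero F ℓ
    have h2 : ((ℓ : ℕ) : F⟦X⟧) = PowerSeries.C ((ℓ : ℕ) : F) := by
      rw [map_natCast]
    rw [h2, h1, map_zero]
  -- the fixed points of `Q`
  set S : Set Ω := {ω | ∀ h ∈ Q, h • ω = ω} with hS
  have hSg : ∀ (g : W) (ω : Ω), g • ω ∈ S ↔ ω ∈ S := by
    have h0 : ∀ (g : W) (ω : Ω), ω ∈ S → g • ω ∈ S := by
      intro g ω hω h hh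
      rw [smul_smul, mul_comm h g, ← smul_smul, hω h hh]
    intro g ω
    refine ⟨fun h => ?_, h0 g ω⟩
    have := h0 g⁻¹ _ h
    rwa [smul_smul, inv_mul_cancel, one_smul] at this
  have hcg : ∀ (g : W) (ω : Ω), c (g • ω) a = c ω a := by
    intro g ω
    have h1 := hfr'.2.1 g ω a
    rwa [ha g (Subgroup.mem_top g)] at h1
  -- some coefficient is not zero
  obtain ⟨ω₀, hω₀, hc0⟩ : ∃ ω ∈ S, c ω a ≠ 0 := by
    by_contra hcon
    push_neg at hcon
    exact ha3 (fbk F⟦X⟧ W As Ω (cw F⟦X⟧ γ) b c hfr' Q a (fx_le _ _ _ le_top ha)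
      fun ω hω => hcon ω hω)
  have hex : ∃ k : ℕ, ¬ ∀ ω ∈ S, (PowerSeries.X : F⟦X⟧) ^ k ∣ c ω a := by
    by_contra hcon
    push_neg at hcon
    apply hc0
    ext m
    rw [map_zero]
    exact PowerSeries.X_pow_dvd_iff.1 (hcon (m + 1) ω₀ hω₀) m (Nat.lt_succ_self m)
  obtain ⟨n, hn1, ω₁, hω₁, hn2⟩ : ∃ n : ℕ, (∀ ω ∈ S, (PowerSeries.X : F⟦X⟧) ^ n ∣ c ω a) ∧
      ∃ ω ∈ S, ¬ (PowerSeries.X : F⟦X⟧) ^ (n + 1) ∣ c ω a := by
    have h1 := Nat.find_spec hex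
    have h0 : Nat.find hex ≠ 0 := by
      intro h
      rw [h] at h1
      exact h1 fun ω _ => by simp
    obtain ⟨n, hn⟩ := Nat.exists_eq_succ_of_ne_zero h0
    refine ⟨n, ?_, ?_⟩
    · have h2 := Nat.find_min hex (m := n) (by omega)
      exact not_not.1 h2
    · rw [hn] at h1
      push_neg at h1
      exact h1
  have hXn : (PowerSeries.X : F⟦X⟧) ^ n ≠ 0 := pow_ne_zero _ PowerSeries.X_ne_zero
  obtain ⟨r, hr1, hr2⟩ : ∃ r : Ω → F⟦X⟧, (∀ ω ∈ S, c ω a = PowerSeries.X ^ n * r ω) ∧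
      ∀ ω, ω ∉ S → r ω = 0 := by
    choose s hs using hn1
    refine ⟨fun ω => if h : ω ∈ S then s ω h else 0, fun ω hω => ?_, fun ω hω => ?_⟩
    · simp only [dif_pos hω]
      exact hs ω hω
    · simp only [dif_neg hω]
  have hrg : ∀ (g : W) (ω : Ω), r (g • ω) = r ω := by
    intro g ω
    by_cases h : ω ∈ S
    · have h1 := hr1 _ ((hSg g ω).2 h)
      rw [hcg, hr1 ω h] at h1
      exact (mul_left_cancel₀ hXn h1).symm
    · rw [hr2 ω h, hr2 _ fun h' => h ((hSg g ω).1 h')]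
  set a' : As := ∑ ω, r ω • b ω with ha'
  have ha'f : a' ∈ FxR (cw F⟦X⟧ γ) ⊤ := by
    intro g _
    rw [ha', map_sum]
    conv_rhs => rw [← Equiv.sum_comp (MulAction.toPerm g)]
    refine Finset.sum_congr rfl fun ω _ => ?_
    rw [map_smul, MulAction.toPerm_apply, hrg, hfr'.1]
  set D : As := a - (PowerSeries.X : F⟦X⟧) ^ n • a' with hD
  have hDs : D = ∑ ω, (c ω a - PowerSeries.X ^ n * r ω) • b ω := by
    rw [hD, ha', Finset.smul_sum]
    conv_lhs => rw [← hfr'.2.2 a]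
    rw [← Finset.sum_sub_distrib]
    refine Finset.sum_congr rfl fun ω _ => ?_
    rw [sub_smul, mul_smul]
  have hDP : ∀ P : Subgroup W, Q ≤ P → D ∈ BKR (cw F⟦X⟧ γ) P := by
    intro P hP
    have h1 := fpx F⟦X⟧ W As Ω (cw F⟦X⟧ γ) P (fun ω => (c ω a - PowerSeries.X ^ n * r ω) • b ω)
      (Finset.univ.filter fun ω => ∀ h ∈ P, h • ω = ω) (by
        intro h _ ω
        rw [hcg, hrg, map_smul, hfr'.1]) (by
        intro ω
        simp)
    rw [← hDs] at h1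
    have h2 : ∑ ω ∈ Finset.univ.filter (fun ω => ∀ h ∈ P, h • ω = ω),
        (c ω a - PowerSeries.X ^ n * r ω) • b ω = 0 := by
      refine Finset.sum_eq_zero fun ω hω => ?_
      rw [Finset.mem_filter] at hω
      rw [hr1 ω fun h hh => hω.2 h (hP hh), sub_self, zero_smul]
    rwa [h2, sub_zero] at h1
  have hca : ∀ ω ∈ S, c ω a' = r ω := by
    intro ω hω
    have h1 := fco ℓ F⟦X⟧ W As Ω (cw F⟦X⟧ γ) b c hl hW hfr' Q D (hDP Q le_rfl) ω hω
    rw [hD, map_sub, map_smul, smul_eq_mul, hr1 ω hω, ← mul_sub] at h1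
    rcases mul_eq_zero.1 h1 with h2 | h2
    · exact absurd h2 hXn
    · exact (sub_eq_zero.1 h2).symm
  have hXa : (PowerSeries.X : F⟦X⟧) ^ n • a' = a - D := by
    rw [hD]
    abel
  refine ⟨a', ha'f, ?_, ?_, ?_⟩
  · intro Q' hQ'
    refine htn n Q' a' (fx_le _ _ _ le_top ha'f) ?_
    rw [hXa]
    exact Submodule.sub_mem _ (ha1 Q' hQ') (hDP Q' hQ'.le)
  · intro m hm
    refine htn n Q _ ?_ ?_
    · have h1 := fx_le (cw F⟦X⟧ γ) Q ⊤ le_top ha'f
      exact Submodule.sub_mem _ (fx_mul γ Q _ _ h1 hm) (fx_mul γ Q _ _ hm h1)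
    · have h1 : (PowerSeries.X : F⟦X⟧) ^ n • (a' * m - m * a') =
          (a * m - m * a) - (D * m - m * D) := by
        rw [smul_sub, ← smul_mul_assoc, ← mul_smul_comm, hXa]
        noncomm_ring
      rw [h1]
      obtain ⟨h2, h3⟩ := bki F⟦X⟧ W As γ Q m hm D (hDP Q le_rfl)
      exact Submodule.sub_mem _ (ha2 m hm) (Submodule.sub_mem _ h3 h2)
  · intro m hm hcon
    apply hn2
    have h1 := fco ℓ F⟦X⟧ W As Ω (cw F⟦X⟧ γ) b c hl hW hfr' Q _ hcon ω₁ hω₁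
    rw [map_sub, map_smul, smul_eq_mul, hca ω₁ hω₁, sub_eq_zero] at h1
    rw [hr1 ω₁ hω₁, pow_succ, h1]
    exact mul_dvd_mul_left _ (Dvd.intro _ rfl)

end Pool.Agent.PST.H15
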