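import Pool.Agent.PST.StmtsET1

/-! SCA: the sum of the elements of `V` -/

set_option autoImplicit false

open scoped BigOperators

noncomputable section

namespace Pool.Agent.PST.ET.H15

open Pool.Agent.PST Pool.Agent.PST.ET

theorem geom_poly (ℓ : ℕ) [Fact ℓ.Prime] :
    (∑ k ∈ Finset.range ℓ, (Polynomial.X : Polynomial (ZMod ℓ)) ^ k) =
      (1 - Polynomial.X) ^ (ℓ - 1) := by
  have hℓ : 0 < ℓ := (Fact.out : ℓ.Prime).pos
  have h1 : (1 - Polynomial.X : Polynomial (ZMod ℓ)) ≠ 0 := by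
    intro h
    have h2 := congrArg (Polynomial.eval 0) h
    simp at h2
  apply mul_left_cancel₀ h1
  rw [← pow_succ', Nat.sub_add_cancel hℓ, sub_pow_char, one_pow, mul_neg_geom_sum]

theorem geom (ℓ : ℕ) [Fact ℓ.Prime] (K : Type) [CommRing K] [CharP K ℓ] (x : K) :
    ∑ k : Fin ℓ, x ^ (k : ℕ) = (1 - x) ^ (ℓ - 1) := by
  letI : Algebra (ZMod ℓ) K := ZMod.algebra K ℓ
  have h := congrArg (Polynomial.aeval x) (geom_poly ℓ)
  rw [map_sum, map_pow, map_sub, map_one, Polynomial.aeval_X] at h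
  rw [← h, Finset.sum_range]
  refine Finset.sum_congr rfl fun k _ => ?_
  rw [map_pow, Polynomial.aeval_X]

theorem sca : ScaStmt := by
  classical
  intro ℓ r _ V K _ _ _ _ β b hb
  rw [← hb.sum_comp (fun v => β v)]
  have h1 := Finset.prod_univ_sum (fun _ : Fin r => (Finset.univ : Finset (Fin ℓ)))
    (fun i k => β (b i) ^ (k : ℕ))
  rw [Fintype.piFinset_univ] at h1
  calc ∑ e : Fin r → Fin ℓ, β (∏ i, b i ^ (e i : ℕ))
      = ∑ e : Fin r → Fin ℓ, ∏ i, β (b i) ^ (e i : ℕ) := by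
        refine Finset.sum_congr rfl fun e _ => ?_
        rw [map_prod]
        refine Finset.prod_congr rfl fun i _ => ?_
        rw [map_pow]
    _ = ∏ i, ∑ k : Fin ℓ, β (b i) ^ (k : ℕ) := h1.symm
    _ = ∏ i, (1 - β (b i)) ^ (ℓ - 1) :=
        Finset.prod_congr rfl fun i _ => geom ℓ K _

end Pool.Agent.PST.ET.H15
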